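import Pool.Agent.Helper51.REC.Goals2
import Pool.Agent.Helper90.RP.DUAL
import Pool.Agent.Helper40.RD.TRF

/-!
# Project REC, packet D_ALL
-/

set_option autoImplicit false

namespace Pool.Agent.Helper2.REC

open NumberField Module IsDedekindDomain Pool.Agent.Helper51.RP Pool.Agent.Helper42.PP
  Pool.Agent.Helper51.REC
open Pool.Agent.Helper40.RS (bel)
open Pool.Agent.Helper40.RD (bel_of_above ordW valW)

section gen

variable {F : Type} [Field F] [NumberField F]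

theorem mem_unit (Z : Set (HeightOneSpectrum (𝓞 F))) (x : Fˣ) :
    x ∈ Z.unit F ↔ ∀ w ∉ Z, ordv w (x : F) = 0 := by
  constructor
  · intro h w hw
    rw [Pool.Agent.Helper90.RP.Dual.ordv_eq_zero_iff w x.ne_zero]
    exact h w hw
  · intro h w hw
    exact (Pool.Agent.Helper90.RP.Dual.ordv_eq_zero_iff w x.ne_zero).1 (h w hw)

theorem one_or (W : HeightOneSpectrum (𝓞 F)) (n : ℕ) :
    W.valuation F (n : F) < 1 ∨ W.valuation F (n : F) = 1 := by
  have h : W.valuation F (algebraMap (𝓞 F) F (n : 𝓞 F)) ≤ 1 := W.valuation_le_one (K := F) _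
  rw [map_natCast] at h
  exact lt_or_eq_of_le h

theorem lt_iff_mem (W : HeightOneSpectrum (𝓞 F)) (n : ℕ) :
    W.valuation F (n : F) < 1 ↔ (n : 𝓞 F) ∈ W.asIdeal := by
  have h : W.valuation F (algebraMap (𝓞 F) F (n : 𝓞 F)) < 1 ↔ (n : 𝓞 F) ∈ W.asIdeal :=
    HeightOneSpectrum.valuation_lt_one_iff_mem (K := F) W (n : 𝓞 F)
  rw [map_natCast] at h
  exact h

theorem finite_above_nat (n : ℕ) (hn : n ≠ 0) :
    {W : HeightOneSpectrum (𝓞 F) | W.valuation F (n : F) < 1}.Finite := by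
  have h := Pool.Agent.Helper90.RP.Dual.finite_lt_one (M := F) (n : 𝓞 F) (by exact_mod_cast hn)
  refine h.subset ?_
  intro W hW
  have hW' : W.valuation F (n : F) < 1 := hW
  show W.valuation F (((n : 𝓞 F)) : F) < 1
  simpa using hW'

theorem nat_unique (W : HeightOneSpectrum (𝓞 F)) {l l' : ℕ} (hl : l.Prime) (hl' : l'.Prime)
    (h : W.valuation F (l : F) < 1) (h' : W.valuation F (l' : F) < 1) : l = l' := by
  rw [lt_iff_mem] at h h'
  by_contra hne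
  have hc : IsCoprime (l : ℤ) (l' : ℤ) :=
    Nat.isCoprime_iff_coprime.2 ((Nat.coprime_primes hl hl').2 hne)
  obtain ⟨a, b, hab⟩ := hc
  apply W.isPrime.ne_top
  rw [Ideal.eq_top_iff_one]
  have h1 : (1 : 𝓞 F) = (a : 𝓞 F) * (l : 𝓞 F) + (b : 𝓞 F) * (l' : 𝓞 F) := by
    exact_mod_cast congrArg (Int.cast : ℤ → 𝓞 F) hab.symm
  rw [h1]
  exact W.asIdeal.add_mem (W.asIdeal.mul_mem_left _ h) (W.asIdeal.mul_mem_left _ h')

theorem finite_below (Z : Set (HeightOneSpectrum (𝓞 F))) (hZ : Z.Finite) :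
    {l : ℕ | l.Prime ∧ ∃ W ∈ Z, W.valuation F (l : F) < 1}.Finite := by
  have h1 : {l : ℕ | l.Prime ∧ ∃ W ∈ Z, W.valuation F (l : F) < 1} ⊆
      ⋃ W ∈ Z, {l : ℕ | l.Prime ∧ W.valuation F (l : F) < 1} := by
    rintro l ⟨hl, W, hW, h⟩
    simp only [Set.mem_iUnion]
    exact ⟨W, hW, hl, h⟩
  refine (hZ.biUnion fun W _ => ?_).subset h1
  refine Set.Subsingleton.finite ?_
  rintro l ⟨hl, h⟩ l' ⟨hl', h'⟩
  exact nat_unique W hl hl' h h'

theorem ordv_zero_of (W : HeightOneSpectrum (𝓞 F)) {x : F} (h : W.valuation F x = 1) :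
    ordv W x = 0 := by
  unfold ordv; rw [h, WithZero.log_one, neg_zero]

theorem root_unit (Z : Set (HeightOneSpectrum (𝓞 F))) (z : Fˣ) (n : ℕ) (hn : n ≠ 0)
    (h : (z : F) ^ n = 1) : z ∈ Z.unit F := by
  intro w _
  have h1 : (w.valuation F (z : F)) ^ n = 1 := by rw [← map_pow, h, map_one]
  rcases lt_trichotomy (w.valuation F (z : F)) 1 with h2 | h2 | h2
  · exact absurd h1 (pow_lt_one₀ (by simp) h2 hn).ne
  · exact h2
  · exact absurd h1 (one_lt_pow₀ h2 hn).ne'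

end gen

section up

variable {F E : Type} [Field F] [NumberField F] [Field E] [NumberField E] [Algebra F E]

theorem above_bel (w : HeightOneSpectrum (𝓞 E)) : Above w (bel F w) := rfl

theorem bel_notMem {S : Set (HeightOneSpectrum (𝓞 F))} {w : HeightOneSpectrum (𝓞 E)}
    (h : w ∉ upS E S) : bel F w ∉ S := fun hm => h ⟨bel F w, hm, rfl⟩

theorem notMem_up {S : Set (HeightOneSpectrum (𝓞 F))} {w : HeightOneSpectrum (𝓞 E)}
    {v : HeightOneSpectrum (𝓞 F)} (hv : v ∉ S) (h : Above w v) : w ∉ upS E S := by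
  rintro ⟨v', hv', h'⟩
  have e1 := bel_of_above h
  have e2 := bel_of_above h'
  rw [e1] at e2
  rw [e2] at hv
  exact hv hv'

theorem bel_nat {w : HeightOneSpectrum (𝓞 E)} {n : ℕ} (h : w.valuation E (n : E) < 1) :
    (bel F w).valuation F (n : F) < 1 := by
  rw [lt_iff_mem] at h ⊢
  show (n : 𝓞 F) ∈ w.asIdeal.comap (algebraMap (𝓞 F) (𝓞 E))
  rw [Ideal.mem_comap, map_natCast]
  exact h

theorem bel_nat_one {w : HeightOneSpectrum (𝓞 E)} {v : HeightOneSpectrum (𝓞 F)} (hw : Above w v)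
    {n : ℕ} (h : v.valuation F (n : F) = 1) : w.valuation E (n : E) = 1 := by
  rcases one_or w n with h1 | h1
  · have h2 := bel_nat (F := F) h1
    rw [bel_of_above hw, h] at h2
    exact absurd h2 (lt_irrefl _)
  · exact h1

theorem inc_unit {S : Set (HeightOneSpectrum (𝓞 F))} {x : Fˣ} (hx : x ∈ S.unit F) :
    inc F E x ∈ (upS E S).unit E := by
  intro w hw
  show w.valuation E (algebraMap F E (x : F)) = 1
  rw [valW w (x : F)]
  have h1 : (bel F w).valuation F (x : F) = 1 := hx (bel F w) (bel_notMem hw)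
  rw [h1, one_pow]

theorem finite_up {S : Set (HeightOneSpectrum (𝓞 F))} (hS : S.Finite) : (upS E S).Finite := by
  have h1 : upS E S = ⋃ v ∈ S, {w : HeightOneSpectrum (𝓞 E) | Above w v} := by
    ext w
    simp only [Set.mem_iUnion]
    constructor
    · rintro ⟨v, hv, h⟩
      exact ⟨v, hv, h⟩
    · rintro ⟨v, hv, h⟩
      exact ⟨v, hv, h⟩
  rw [h1]
  refine hS.biUnion fun v _ => ?_
  obtain ⟨x, hx, hx0⟩ := Submodule.exists_mem_ne_zero_of_ne_bot v.ne_bot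
  have hy : algebraMap (𝓞 F) (𝓞 E) x ≠ 0 := by
    intro h0
    apply hx0
    have h2 : Function.Injective (algebraMap (𝓞 F) (𝓞 E)) := FaithfulSMul.algebraMap_injective _ _
    exact h2 (by rw [h0, map_zero])
  refine (Pool.Agent.Helper90.RP.Dual.finite_lt_one (M := E) _ hy).subset ?_
  intro w hw
  have hw' : Above w v := hw
  refine (HeightOneSpectrum.valuation_lt_one_iff_mem (K := E) w _).2 ?_
  rw [← Ideal.mem_comap, hw']
  exact hx

theorem sit_up {p : ℕ} {ε : F} {S : Set (HeightOneSpectrum (𝓞 F))} (hS : Sit p F ε S)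
    [hE : IsTotallyComplex E]
    (h : ∀ n : HeightOneSpectrum (𝓞 E) →₀ ℤ, ∃ x : Eˣ, ∀ w ∉ upS E S, ordv w (x : E) = n w) :
    Sit p E (algebraMap F E ε) (upS E S) where
  prim := hS.prim.map_of_injective (algebraMap F E).injective
  cplx := hE
  fin := finite_up hS.fin
  abp := fun w hw => ⟨bel F w, hS.abp _ (bel_nat hw), rfl⟩
  prin := h

end up

section alg

theorem exists_dual₀ {A K : Type} [Field K] [AddCommGroup A] [Module K A] (v : A) (hv : v ≠ 0) :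
    ∃ f : A →+ K, f v ≠ 0 := by
  obtain ⟨f, hf⟩ := Module.Projective.exists_dual_ne_zero K (V := A) hv
  exact ⟨f.toAddMonoidHom, hf⟩

theorem exists_dual {A : Type} [AddCommGroup A] (p : ℕ) [Fact p.Prime]
    (hA : ∀ x : A, p • x = 0) (v : A) (hv : v ≠ 0) : ∃ f : A →+ ZMod p, f v ≠ 0 :=
  @exists_dual₀ A (ZMod p) _ _ (AddCommGroup.zmodModule hA) v hv

/-- a functional which is not zero at a given element -/
theorem exists_functional {U : Type} [CommGroup U] (p : ℕ) [Fact p.Prime] (z : U)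
    (hz : ¬ ∃ y : U, z = y ^ p) : ∃ φ : U →* Multiplicative (ZMod p), φ z ≠ 1 := by
  let N : AddSubgroup (Additive U) := (nsmulAddMonoidHom (α := Additive U) p).range
  have hN : ∀ x : Additive U ⧸ N, p • x = 0 := by
    intro x
    induction x using QuotientAddGroup.induction_on with
    | H x =>
      rw [← QuotientAddGroup.mk_nsmul, QuotientAddGroup.eq_zero_iff]
      exact ⟨x, rfl⟩
  have hv : (QuotientAddGroup.mk (Additive.ofMul z) : Additive U ⧸ N) ≠ 0 := by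
    intro h0
    rw [QuotientAddGroup.eq_zero_iff] at h0
    obtain ⟨y, hy⟩ := h0
    exact hz ⟨y.toMul, (congrArg Additive.toMul hy).symm⟩
  obtain ⟨f, hf⟩ := exists_dual p hN _ hv
  let g : Additive U →+ ZMod p := f.comp (QuotientAddGroup.mk' N)
  refine ⟨AddMonoidHom.toMultiplicativeRight g, fun h => hf ?_⟩
  exact congrArg Multiplicative.toAdd h

theorem surj_of {G : Type} [CommGroup G] {p : ℕ} [Fact p.Prime] (f g : G → ZMod p)
    (hf : ∀ a b, f (a * b) = f a + f b) (hg : ∀ a b, g (a * b) = g a + g b) (x y : G)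
    (hx : f x ≠ 0) (hy : f y = 0) (hy' : g y ≠ 0) (a b : ZMod p) :
    ∃ γ, f γ = a ∧ g γ = b := by
  have hpow : ∀ h : G → ZMod p, (∀ a b, h (a * b) = h a + h b) → ∀ (n : ℕ) (z : G),
      h (z ^ n) = n * h z := by
    intro h hh n z
    have h1 : h 1 = 0 := by
      have := hh 1 1
      rw [mul_one] at this
      exact left_eq_add.1 this
    induction n with
    | zero => rw [pow_zero, h1, Nat.cast_zero, zero_mul]
    | succ n ih => rw [pow_succ, hh, ih]; push_cast; ring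
  refine ⟨x ^ (a / f x).val * y ^ ((b - (a / f x) * g x) / g y).val, ?_, ?_⟩
  · rw [hf, hpow f hf, hpow f hf, hy, mul_zero, add_zero, ZMod.natCast_zmod_val,
      div_mul_cancel₀ _ hx]
  · rw [hg, hpow g hg, hpow g hg, ZMod.natCast_zmod_val, ZMod.natCast_zmod_val,
      div_mul_cancel₀ _ hy']
    ring

/-- a root of unity `z` of maximal `p`-power order is not a `p`-th power -/
theorem not_pow {F : Type} [Field F] {p : ℕ} [hp : Fact p.Prime] {k : ℕ} (hk : 1 ≤ k) {z : F}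
    (hz : IsPrimitiveRoot z (p ^ k)) (hmax : ∀ y : F, ¬ IsPrimitiveRoot y (p ^ (k + 1))) :
    ¬ ∃ y : F, z = y ^ p := by
  rintro ⟨y, hy⟩
  apply hmax y
  have h1 : y ^ p ^ (k + 1) = 1 := by
    rw [pow_succ' p k, pow_mul, ← hy, hz.pow_eq_one]
  have h2 : ¬ y ^ p ^ k = 1 := by
    intro h
    obtain ⟨m, rfl⟩ : ∃ m, k = m + 1 := ⟨k - 1, by omega⟩
    rw [pow_succ' p m, pow_mul, ← hy] at h
    have h3 := hz.dvd_of_pow_eq_one _ h
    have h4 := Nat.le_of_dvd (pow_pos hp.out.pos m) h3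
    have h5 : p ^ m < p ^ (m + 1) := Nat.pow_lt_pow_right hp.out.one_lt (Nat.lt_succ_self m)
    omega
  rw [← orderOf_eq_prime_pow h2 h1]
  exact IsPrimitiveRoot.orderOf y

end alg

/-- the symbol of `x` at `V` is the value of `[x, ·]` at an element with divisor `V` -/
theorem brk_divIs (h3 : K_BRK) {p : ℕ} [Fact p.Prime] {F : Type} [Field F] [NumberField F] {ε : F}
    {S : Set (HeightOneSpectrum (𝓞 F))} (hS : Sit p F ε S) (x β : Fˣ) (V : HeightOneSpectrum (𝓞 F))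
    (hV : DivIs S β V) : brk p ε S x β = kap p ε V x := by
  obtain ⟨-, -, -, h, -⟩ := h3 p F ε S hS.prim hS.abp
  rw [h x β {V} (by intro W hW; rw [Finset.mem_singleton.1 hW]; exact hV.1) ?_,
    Finset.sum_singleton, hV.2.1, Int.cast_one, one_mul]
  intro W hW hd
  rw [Finset.mem_singleton]
  by_contra hne
  apply hd
  rw [hV.2.2 W hW hne]
  exact dvd_zero _

theorem exists_divIs {p : ℕ} {F : Type} [Field F] [NumberField F] {ε : F}
    {S : Set (HeightOneSpectrum (𝓞 F))} (hS : Sit p F ε S) (V : HeightOneSpectrum (𝓞 F))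
    (hV : V ∉ S) : ∃ β : Fˣ, DivIs S β V := by
  classical
  obtain ⟨β, hβ⟩ := hS.prin (Finsupp.single V 1)
  refine ⟨β, hV, ?_, fun W hW hne => ?_⟩
  · rw [hβ V hV, Finsupp.single_eq_same]
  · rw [hβ W hW, Finsupp.single_eq_of_ne hne]

/-- surjectivity of `([ζ, ·], [c, ·])` -/
theorem surj (h3 : K_BRK) (h8 : G_IND) {p : ℕ} [Fact p.Prime] {F : Type}
    [Field F] [NumberField F] {ε : F} {S : Set (HeightOneSpectrum (𝓞 F))} (hS : Sit p F ε S)
    {l : ℕ} [Fact l.Prime] {χ : (ZMod l)ˣ →* Multiplicative (ZMod p)} {c : Fˣ} (hpl : p ∣ l - 1)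
    (hχ : Function.Surjective χ) (hc : Gau p ε l χ c)
    (hl : ∀ W : HeightOneSpectrum (𝓞 F), W.valuation F (l : F) < 1 → W ∈ S ∧ ordv W (l : F) = 1)
    {k : ℕ} {ζ : Fˣ} {j : ZMod p} (hk : 1 ≤ k)
    (hj : ∀ W : HeightOneSpectrum (𝓞 F), W.valuation F (p : F) = 1 →
      p ^ k ∣ Ideal.absNorm W.asIdeal - 1 ∧
      kap p ε W ζ = j * (((Ideal.absNorm W.asIdeal - 1) / p ^ k : ℕ) : ZMod p))
    (V : HeightOneSpectrum (𝓞 F)) (hV : V ∉ S) (hVζ : kap p ε V ζ ≠ 0) (a b : ZMod p) :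
    ∃ γ, brk p ε S ζ γ = a ∧ brk p ε S c γ = b := by
  obtain ⟨γ₀, -, -, h0, h1⟩ := h8 p F ε S ∅ hS (Set.empty_subset _) l χ c hpl hχ hc
    (fun W hW => ⟨(hl W hW).1, Set.notMem_empty _, (hl W hW).2⟩) k ζ j hk hj
  obtain ⟨γ₁, hγ₁⟩ := exists_divIs hS V hV
  obtain ⟨hadd, -⟩ := h3 p F ε S hS.prim hS.abp
  refine surj_of (brk p ε S ζ) (brk p ε S c) (hadd ζ) (hadd c) γ₁ γ₀ ?_ h0 h1 a b
  rw [brk_divIs h3 hS ζ γ₁ V hγ₁]
  exact hVζ

theorem gau_unit {p : ℕ} {F : Type} [Field F] [NumberField F] {ε : F}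
    {S : Set (HeightOneSpectrum (𝓞 F))} {l : ℕ} {χ : (ZMod l)ˣ →* Multiplicative (ZMod p)} {c : Fˣ}
    (hc : Gau p ε l χ c)
    (hl : ∀ W : HeightOneSpectrum (𝓞 F), W.valuation F (l : F) < 1 → W ∈ S) : c ∈ S.unit F := by
  intro w hw
  rcases one_or w l with h | h
  · exact absurd (hl w h) hw
  · exact hc.unit w h

/-- the value of `ρ` at one more prime -/
theorem key (h2 : K_EXT) (h3 : K_BRK) (h4 : G_ZET) (h6 : G_EXT) (h7 : G_LAW) (h8 : G_IND)
    (h9 : G_ELL) (h10 : D_SEX) (h11 : D_CYC) (h12 : D_NRM) (h13 : D_RHO) (h14 : D_CMP)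
    (p : ℕ) [hp : Fact p.Prime] (F : Type) [Field F] [NumberField F] (ε : F)
    (hcx : IsTotallyComplex F) (𝒲 : Set (HeightOneSpectrum (𝓞 F))) (hfin : 𝒲.Finite)
    (W : HeightOneSpectrum (𝓞 F)) (hWp : W.valuation F (p : F) = 1) :
    ∃ (B : Set ℕ) (Z : Set (HeightOneSpectrum (𝓞 F))), B.Finite ∧ Z.Finite ∧ Disjoint Z 𝒲 ∧
    ∀ S : Set (HeightOneSpectrum (𝓞 F)), Sit p F ε S → Z ⊆ S → W ∉ S →
    ∀ (l : ℕ) [Fact l.Prime], p ∣ l - 1 → l ∉ B →
      (∀ V : HeightOneSpectrum (𝓞 F), V.valuation F (l : F) < 1 → V ∈ S) →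
    ∀ (χ : (ZMod l)ˣ →* Multiplicative (ZMod p)) (c : Fˣ), Function.Surjective χ → Gau p ε l χ c →
    ∀ A : Set (HeightOneSpectrum (𝓞 F)), (∀ V, V ∉ S → kap p ε V c ≠ 0 → V ∈ A) →
    ∀ x ∈ S.unit F, ∀ ρ : Fˣ → ZMod p, Rho p ε S x A ρ →
    ∀ α : Fˣ, DivIs S α W → ρ α = kap p ε W x := by
  classical
  set t : ℕ := padicValNat p (Ideal.absNorm W.asIdeal - 1) with ht
  obtain ⟨E, iF, iN, iA, hG, hC, ⟨z, hz⟩, hcyc⟩ := h11 p F t
  obtain ⟨w, hw, hNw⟩ := hcyc W hWp pow_padicValNat_dvd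
  obtain ⟨Z, hZ, hdis, hprin⟩ := h10 F E 𝒲 hfin
  refine ⟨{l : ℕ | l.Prime ∧ ∃ V : HeightOneSpectrum (𝓞 E), V.valuation E (l : E) < 1 ∧
      ordv V (l : E) ≠ 1}, Z, (h9 p E).2, hZ, hdis, ?_⟩
  intro S hS hZS hWS l hl hpl hlB hlS χ c hχ hc A hA x hx ρ hρ α hα
  -- the situation over `E`
  have hS' : Sit p E (algebraMap F E ε) (upS E S) := sit_up hS (hprin S hZS)
  have hwS : w ∉ upS E S := notMem_up hWS hw
  have hwp : w.valuation E (p : E) = 1 := bel_nat_one hw hWp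
  have hl' : ∀ V : HeightOneSpectrum (𝓞 E), V.valuation E (l : E) < 1 →
      V ∈ upS E S ∧ ordv V (l : E) = 1 := by
    intro V hV
    refine ⟨⟨bel F V, hlS _ (bel_nat hV), rfl⟩, ?_⟩
    by_contra hne
    exact hlB ⟨hl.out, V, hV, hne⟩
  obtain ⟨k, ζ, j, hk, hζ, hmax, hj0, hj⟩ := h4 p E (algebraMap F E ε) hS'.prim
  have hc' : Gau p (algebraMap F E ε) l χ (inc F E c) := h6 p F E ε hS.prim l χ c hc
  have hcS : c ∈ S.unit F := gau_unit hc hlS
  have hcS' : inc F E c ∈ (upS E S).unit E := inc_unit hcS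
  have hζS' : ζ ∈ (upS E S).unit E :=
    root_unit _ ζ (p ^ k) (pow_pos hp.out.pos k).ne' hζ.pow_eq_one
  have hlaw := h7 p E (algebraMap F E ε) (upS E S) hS'
  have hlawc : Law p (algebraMap F E ε) (upS E S) (inc F E c) :=
    hlaw.1 l χ (inc F E c) hc' (fun V hV => (hl' V hV).1)
  have hlawζ : Law p (algebraMap F E ε) (upS E S) ζ := hlaw.2 k ζ j hk hj
  -- `k = t`
  have hN0 : Ideal.absNorm W.asIdeal - 1 ≠ 0 := by
    have h1 : Ideal.absNorm W.asIdeal ≠ 1 := by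
      rw [Ne, Ideal.absNorm_eq_one_iff]
      exact W.isPrime.ne_top
    have h0 : Ideal.absNorm W.asIdeal ≠ 0 := by
      rw [Ne, Ideal.absNorm_eq_zero_iff]
      exact W.ne_bot
    omega
  have hkt : k = t := by
    apply le_antisymm
    · have h1 := (hj w hwp).1
      rw [hNw] at h1
      exact (padicValNat_dvd_iff_le hN0).1 h1
    · by_contra hlt
      push Not at hlt
      apply hmax (z ^ p ^ (t - (k + 1)))
      refine hz.pow (pow_pos hp.out.pos _) ?_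
      rw [← pow_add]
      congr 1
      omega
  have hkap : kap p (algebraMap F E ε) w ζ ≠ 0 := by
    rw [(hj w hwp).2, hNw, hkt]
    refine mul_ne_zero hj0 ?_
    rw [Ne, ZMod.natCast_eq_zero_iff]
    intro hd
    have h1 : p ^ (t + 1) ∣ Ideal.absNorm W.asIdeal - 1 := by
      rw [pow_succ]
      exact (Nat.mul_dvd_mul_iff_left (pow_pos hp.out.pos t)).1 (by
        rw [← Nat.mul_div_cancel' (show p ^ t ∣ Ideal.absNorm W.asIdeal - 1 from
          pow_padicValNat_dvd)]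
        exact Nat.mul_dvd_mul_left _ (Nat.mul_dvd_mul_left _ hd))
    have h2 := (padicValNat_dvd_iff_le hN0).1 h1
    omega
  have hsurj := surj h3 h8 hS' hpl hχ hc' hl' hk hj w hwS hkap
  obtain ⟨ρ', hρ'⟩ := h13 p E (algebraMap F E ε) (upS E S) hS' ζ (inc F E c) hζS' hcS' hlawζ hlawc
    hsurj (inc F E x) (inc_unit hx)
  have hcmp := h14 p F E ε S hS hS' c hcS hlawc
    (by
      obtain ⟨γ, -, h⟩ := hsurj 0 1
      exact ⟨γ, by rw [h]; exact one_ne_zero⟩)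
    x hx A _ ρ ρ' hρ hρ' hA (fun V hV h => ⟨hV, Or.inr h⟩)
  obtain ⟨a, ha⟩ := exists_divIs hS' w hwS
  have hnrm := (h12 p F E S hS.fin).2.2 a w ha W 1 hw (by rw [hNw, pow_one])
  have hu : nrm F E a / α ∈ S.unit F := by
    rw [mem_unit]
    intro V hV
    rw [Units.val_div_eq_div_val, div_eq_mul_inv,
      Pool.Agent.Helper90.RP.Dual.ordv_mul V (Units.ne_zero _) (inv_ne_zero α.ne_zero),
      Pool.Agent.Helper90.RP.Dual.ordv_inv]
    by_cases hVW : V = W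
    · rw [hVW, hnrm.2.1, hα.2.1]
      norm_num
    · rw [hnrm.2.2 V hV hVW, hα.2.2 V hV hVW]
      norm_num
  have h15 : ρ (nrm F E a) = ρ α := by
    have h1 := hρ.hom α (nrm F E a / α)
    rw [mul_div_cancel, hρ.unit _ hu, add_zero] at h1
    exact h1
  have h16 : ρ' a = kap p (algebraMap F E ε) w (inc F E x) :=
    hρ'.val w ⟨hwS, Or.inl hkap⟩ a ha
  have h17 : kap p (algebraMap F E ε) w (inc F E x) = kap p ε W x := by
    rw [h2 p F E ε hS.prim W w hw hWp 1 (by rw [hNw, pow_one]) x ?_, Nat.cast_one, one_mul]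
    rw [ordv_zero_of W (hx W hWS)]
    exact dvd_zero _
  rw [← h15, ← hcmp a, h16, h17]

theorem d_all (h1 : K_BAS) (h2 : K_EXT) (h3 : K_BRK) (h4 : G_ZET) (h5 : G_GAU) (h6 : G_EXT)
    (h7 : G_LAW) (h8 : G_IND) (h9 : G_ELL) (h10 : D_SEX) (h11 : D_CYC) (h12 : D_NRM)
    (h13 : D_RHO) (h14 : D_CMP) (h15 : L_HIT) (h16 : H_RNK) :
    Pool.Agent.Helper51.REC.D_ALL := by
  classical
  intro p hp F _ _ ε S₀ hS₀ 𝒲 h𝒲
  have hWp : ∀ W : HeightOneSpectrum (𝓞 F), W ∉ S₀ → W.valuation F (p : F) = 1 := by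
    intro W hW
    rcases one_or W p with h | h
    · exact absurd (hS₀.abp W h) hW
    · exact h
  have hkey := fun W : {W // W ∈ 𝒲} => key h2 h3 h4 h6 h7 h8 h9 h10 h11 h12 h13 h14 p F ε
    hS₀.cplx (𝒲 : Set (HeightOneSpectrum (𝓞 F))) 𝒲.finite_toSet W.1 (hWp W.1 (h𝒲 W.1 W.2))
  choose B Z hB hZ hdis hval using hkey
  -- the prime `l`
  have hbad : (((⋃ W, B W) ∪ {l : ℕ | l.Prime ∧ ∃ W : HeightOneSpectrum (𝓞 F),
      W.valuation F (l : F) < 1 ∧ ordv W (l : F) ≠ 1}) ∪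
      {l : ℕ | l.Prime ∧ ∃ W ∈ S₀ ∪ (𝒲 : Set (HeightOneSpectrum (𝓞 F))),
        W.valuation F (l : F) < 1}).Finite :=
    ((Set.finite_iUnion hB).union (h9 p F).2).union
      (finite_below _ (hS₀.fin.union 𝒲.finite_toSet))
  obtain ⟨l, ⟨hl, hpl⟩, hlB⟩ := ((h9 p F).1.diff hbad).nonempty
  simp only [Set.mem_union, not_or, Set.mem_iUnion, not_exists] at hlB
  obtain ⟨⟨hlB1, hlB2⟩, hlB3⟩ := hlB
  have hlf : Fact l.Prime := ⟨hl⟩
  have hlB3' : ∀ W ∈ S₀ ∪ (𝒲 : Set (HeightOneSpectrum (𝓞 F))), ¬ W.valuation F (l : F) < 1 :=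
    fun W hW h => hlB3 ⟨hl, W, hW, h⟩
  -- the set `S`
  set S : Set (HeightOneSpectrum (𝓞 F)) :=
    (S₀ ∪ {W | W.valuation F (l : F) < 1}) ∪ ⋃ W, Z W with hSdef
  have hS₀S : S₀ ⊆ S := fun v hv => Or.inl (Or.inl hv)
  have hS : Sit p F ε S :=
    { prim := hS₀.prim
      cplx := hS₀.cplx
      fin := (hS₀.fin.union (finite_above_nat l hl.ne_zero)).union (Set.finite_iUnion hZ)
      abp := fun W hW => hS₀S (hS₀.abp W hW)
      prin := fun n => by
        obtain ⟨x, hx⟩ := hS₀.prin n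
        exact ⟨x, fun W hW => hx W (fun h => hW (hS₀S h))⟩ }
  have h𝒲S : ∀ W ∈ 𝒲, W ∉ S := by
    rintro W hW ((h | h) | h)
    · exact h𝒲 W hW h
    · exact hlB3' W (Or.inr hW) h
    · obtain ⟨V, hV⟩ := Set.mem_iUnion.1 h
      exact Set.disjoint_left.1 (hdis V) hV hW
  have hlS : ∀ W : HeightOneSpectrum (𝓞 F), W.valuation F (l : F) < 1 →
      W ∈ S ∧ W ∉ S₀ ∧ ordv W (l : F) = 1 := by
    intro W hW
    refine ⟨Or.inl (Or.inr hW), fun h => hlB3' W (Or.inl h) hW, ?_⟩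
    by_contra hne
    exact hlB2 ⟨hl, W, hW, hne⟩
  obtain ⟨χ, c, hχ, hc⟩ := h5 p F ε hS₀.prim l hl hpl
  obtain ⟨k, ζ, j, hk, hζ, hmax, hj0, hj⟩ := h4 p F ε hS₀.prim
  have hcS : c ∈ S.unit F := gau_unit hc (fun W hW => (hlS W hW).1)
  have hζS : ζ ∈ S.unit F := root_unit _ ζ (p ^ k) (pow_pos hp.out.pos k).ne' hζ.pow_eq_one
  have hlaw := h7 p F ε S hS
  have hlawc : Law p ε S c := hlaw.1 l χ c hc (fun V hV => (hlS V hV).1)
  have hlawζ : Law p ε S ζ := hlaw.2 k ζ j hk hj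
  -- a prime at which `ζ` is not a `p`-th power
  obtain ⟨V, hV, hVζ⟩ : ∃ V, V ∉ S ∧ kap p ε V ζ ≠ 0 := by
    obtain ⟨φ, hφ⟩ := exists_functional (U := S.unit F) p ⟨ζ, hζS⟩ (by
      rintro ⟨y, hy⟩
      apply not_pow hk hζ hmax
      refine ⟨((y : Fˣ) : F), ?_⟩
      have h := congrArg (fun u : S.unit F => ((u : Fˣ) : F)) hy
      simpa using h)
    obtain ⟨V, n, hV, -, hn, hval⟩ := h15 p F ε S hS φ (fun h => hφ (by rw [h]; rfl)) ∅
      Set.finite_empty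
    refine ⟨V, hV, ?_⟩
    have h := hval ⟨ζ, hζS⟩
    have h' : kap p ε V ζ = n * (φ ⟨ζ, hζS⟩).toAdd := h
    rw [h']
    exact mul_ne_zero hn (fun h0 => hφ (Multiplicative.toAdd.injective h0))
  have hsurj := surj h3 h8 hS hpl hχ hc (fun W hW => ⟨(hlS W hW).1, (hlS W hW).2.2⟩) hk hj V hV hVζ
  refine ⟨S, hS₀S, hS, h𝒲S, ζ, c, hζS, hcS, hlawζ, hlawc, ?_, ?_⟩
  · obtain ⟨γ, hγ1, hγ2, -, hγ3⟩ := h8 p F ε S S₀ hS hS₀S l χ c hpl hχ hc hlS k ζ j hk hj
    exact ⟨γ, hγ1, hγ2, hγ3⟩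
  · intro x hx
    obtain ⟨ρ, hρ⟩ := h13 p F ε S hS ζ c hζS hcS hlawζ hlawc hsurj x hx
    refine ⟨ρ, hρ.hom, hρ.unit, hρ.loc, ?_⟩
    rintro W ⟨hWS, h | h | h⟩ α hα
    · exact hρ.val W ⟨hWS, Or.inl h⟩ α hα
    · exact hρ.val W ⟨hWS, Or.inr h⟩ α hα
    · have hval' := hval ⟨W, h⟩ S hS (fun v hv => Or.inr (Set.mem_iUnion.2 ⟨_, hv⟩)) hWS l hpl
        (hlB1 ⟨W, h⟩) (fun V hV => (hlS V hV).1) χ c hχ hc
        {W | W ∉ S ∧ (kap p ε W ζ ≠ 0 ∨ kap p ε W c ≠ 0)} (fun V hV h => ⟨hV, Or.inr h⟩)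
        x hx ρ hρ α hα
      exact hval'

end Pool.Agent.Helper2.REC
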